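import Pool.Agent.H65.CRZ.TL

/-!
# Board crz_modules, row G2: the logarithmic derivative of the Gamma function on compact sets
-/

set_option autoImplicit false

open Complex Set MeasureTheory

namespace Pool.Agent.H56.CRZ

open Pool.Agent.H65.CRZ

theorem pf_G2 : T_G2 := by
  have hU : IsOpen {s : ℂ | 0 < s.re} := isOpen_lt continuous_const Complex.continuous_re
  have hG : ∀ s : ℂ, 0 < s.re → DifferentiableAt ℂ Gamma s := by
    intro s hs
    refine Complex.differentiableAt_Gamma s fun m e => ?_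
    rw [e] at hs
    simp only [neg_re, natCast_re] at hs
    have : (0 : ℝ) ≤ m := Nat.cast_nonneg m
    linarith
  have hGo : DifferentiableOn ℂ Gamma {s : ℂ | 0 < s.re} :=
    fun s hs => (hG s hs).differentiableWithinAt
  have hG' : DifferentiableOn ℂ (deriv Gamma) {s : ℂ | 0 < s.re} := hGo.deriv hU
  have hne : ∀ s : ℂ, 0 < s.re → Gamma s ≠ 0 := fun s hs => Complex.Gamma_ne_zero_of_re_pos hs
  have hl : ∀ s : ℂ, 0 < s.re → DifferentiableAt ℂ (ld Gamma) s := by
    intro s hs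
    have h1 : DifferentiableAt ℂ (deriv Gamma) s := hG'.differentiableAt (hU.mem_nhds hs)
    exact h1.div (hG s hs) (hne s hs)
  refine ⟨fun s hs => ⟨hG s hs, hne s hs, hl s hs⟩, fun b T => ?_⟩
  have hlo : DifferentiableOn ℂ (ld Gamma) {s : ℂ | 0 < s.re} :=
    fun s hs => (hl s hs).differentiableWithinAt
  have hl' : DifferentiableOn ℂ (deriv (ld Gamma)) {s : ℂ | 0 < s.re} := hlo.deriv hU
  have hK : IsCompact (Icc (1 / 8 : ℝ) b ×ℂ Icc (-T) T) := isCompact_Icc.reProdIm isCompact_Icc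
  have hsub : (Icc (1 / 8 : ℝ) b ×ℂ Icc (-T) T) ⊆ {s : ℂ | 0 < s.re} := by
    intro s hs
    have h1 : (1 / 8 : ℝ) ≤ s.re := hs.1.1
    show 0 < s.re
    linarith
  obtain ⟨C1, hC1⟩ := hK.exists_bound_of_continuousOn (hlo.continuousOn.mono hsub)
  obtain ⟨C2, hC2⟩ := hK.exists_bound_of_continuousOn (hl'.continuousOn.mono hsub)
  refine ⟨max 1 (max C1 C2), lt_of_lt_of_le one_pos (le_max_left _ _), fun s h1 h2 h3 => ?_⟩
  have hs : s ∈ (Icc (1 / 8 : ℝ) b ×ℂ Icc (-T) T) := ⟨⟨h1, h2⟩, abs_le.1 h3⟩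
  exact ⟨(hC1 s hs).trans ((le_max_left _ _).trans (le_max_right _ _)),
    (hC2 s hs).trans ((le_max_right _ _).trans (le_max_right _ _))⟩

end Pool.Agent.H56.CRZ
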