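import Pool.Agent.H65.CRZ.TD
import Pool.Agent.H91.CRZ.B

/-!
Board crz_modules, row FB: the auxiliary function far to the right.
-/

set_option autoImplicit false

open NumberField NumberField.InfinitePlace Complex Filter Topology MeasureTheory

namespace Pool.Agent.H56.CRZ.FB

open Pool.Agent.H28.RC Pool.Agent.H25.HK Pool.Agent.H37.CV
open Pool.Agent.H65.CRZ

/-- Cauchy's bound for the derivative -/
theorem deriv_le {Z : ℂ → ℂ} (hZ : Differentiable ℂ Z) {C : ℝ}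
    (h : ∀ s : ℂ, 3 / 2 ≤ s.re → ‖Z s - 1‖ ≤ C * (2 : ℝ) ^ (-s.re)) (hC : 0 ≤ C) {s : ℂ}
    (hs : 5 / 2 ≤ s.re) : ‖deriv Z s‖ ≤ 2 * C * (2 : ℝ) ^ (-s.re) := by
  have h1 : deriv Z s = deriv (fun z => Z z - 1) s := (deriv_sub_const _).symm
  have h2 := Complex.norm_deriv_le_of_forall_mem_sphere_norm_le (f := fun z => Z z - 1)
    (c := s) (R := 1) (C := 2 * C * (2 : ℝ) ^ (-s.re)) one_pos
    (hZ.sub_const 1).diffContOnCl (by
      intro z hz
      rw [mem_sphere_iff_norm] at hz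
      have h3 : |(z - s).re| ≤ 1 := (Complex.abs_re_le_norm _).trans hz.le
      rw [Complex.sub_re, abs_le] at h3
      refine (h z (by linarith [h3.1])).trans ?_
      have h4 : (2 : ℝ) ^ (-z.re) ≤ 2 * (2 : ℝ) ^ (-s.re) := by
        calc (2 : ℝ) ^ (-z.re) ≤ (2 : ℝ) ^ (1 + -s.re) :=
              Real.rpow_le_rpow_of_exponent_le one_le_two (by linarith [h3.1])
          _ = 2 * (2 : ℝ) ^ (-s.re) := by rw [Real.rpow_add two_pos, Real.rpow_one]
      calc C * (2 : ℝ) ^ (-z.re) ≤ C * (2 * (2 : ℝ) ^ (-s.re)) :=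
            mul_le_mul_of_nonneg_left h4 hC
        _ = _ := by ring)
  rw [h1]
  rw [div_one] at h2
  exact h2

/-- the logarithm near one -/
theorem log_near {x : ℝ} (hx : 1 / 2 ≤ x) : |Real.log x| ≤ 2 * |x - 1| := by
  have h0 : 0 < x := by linarith
  have h1 := Real.log_le_sub_one_of_pos h0
  have h2 := Real.log_le_sub_one_of_pos (inv_pos.2 h0)
  rw [Real.log_inv] at h2
  have h3 : x⁻¹ - 1 ≤ 2 * |x - 1| := by
    have h4 : x⁻¹ - 1 = (1 - x) / x := by
      rw [sub_div, div_self h0.ne', one_div]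
    rw [h4, div_le_iff₀ h0]
    have h5 : 1 - x ≤ |x - 1| := by
      rw [abs_sub_comm]
      exact le_abs_self _
    have h6 := abs_nonneg (x - 1)
    nlinarith
  have h7 : x - 1 ≤ |x - 1| := le_abs_self _
  have h8 := abs_nonneg (x - 1)
  rw [abs_le]
  constructor <;> linarith

section

variable {K : Type} [Field K] [NumberField K]

/-- the mollifier is entire -/
theorem ml_diff (M σ₀ : ℝ) (ψ : Ideal (𝓞 K) → ℂ) : Differentiable ℂ (ml M σ₀ ψ) := by
  intro s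
  unfold ml
  refine DifferentiableAt.fun_sum fun S _ => ?_
  refine DifferentiableAt.const_mul ?_ _
  refine DifferentiableAt.const_cpow ?_ (Or.inl ?_)
  · exact (((differentiableAt_id.add_const _).sub_const _)).neg
  · exact_mod_cast (Pool.Agent.H96.CV.nS_pos S).ne'

/-- the mollifier far to the right -/
theorem ml_near {C : ℝ} (hC : 0 ≤ C)
    (hH : ∀ (M : ℝ) (χ : RCC K) (c : Finset (PrI K) → ℂ) (s : ℂ), 3 / 2 ≤ s.re →
      (∀ S, ‖c S‖ ≤ 1) → c ∅ = 1 → 1 ≤ M →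
      ‖(∑ S ∈ DM K M, c S * χ.ψ (idS S) * ((nS np S : ℝ) : ℂ) ^ (-s)) - 1‖ ≤
        C * (2 : ℝ) ^ (-s.re)) {M σ₀ : ℝ} (hM : 1 ≤ M) (hσ : σ₀ ≤ 1 / 2) (χ : RCC K) {s : ℂ}
    (hs : 3 / 2 ≤ s.re) : ‖ml M σ₀ χ.ψ s - 1‖ ≤ C * (2 : ℝ) ^ (-s.re) := by
  have hre : (s + 1 / 2 - σ₀).re = s.re + 1 / 2 - σ₀ := by simp
  have h1 := hH M χ (fun S => (xw K M S : ℂ)) (s + 1 / 2 - σ₀) (by rw [hre]; linarith)
    (fun S => by
      rw [Complex.norm_real, Real.norm_eq_abs]
      exact Pool.Agent.H91.CRZ.abs_xw_le hM S)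
    (by
      have h2 := (a_CX (PrI K) np (PM K M) M Pool.Agent.H96.CV.two_le_np hM).1
      change ((xS np (PM K M) M ∅ : ℝ) : ℂ) = 1
      rw [h2, Complex.ofReal_one]) hM
  rw [hre] at h1
  refine h1.trans (mul_le_mul_of_nonneg_left ?_ hC)
  exact Real.rpow_le_rpow_of_exponent_le one_le_two (by linarith)

end

theorem pf_FB (h1 : T_V0) (_h2 : T_G2) (h3 : T_H2) (h4 : T_LF) (h5 : T_CQ) : T_FB := by
  intro K _ _ _ hK lam R ε₁ hlam1 hlam2 hR hε hε2
  obtain ⟨C1, hC1, hL, hM⟩ := h3 K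
  obtain ⟨CL, q1, hCL, hLF⟩ := h4 K hK
  obtain ⟨-, c0, hc0, hcq⟩ := h5 K hK
  have hC10 : 0 ≤ C1 := by linarith
  obtain ⟨C2, hC2⟩ : ∃ C2 : ℝ, C2 = 3 * C1 := ⟨_, rfl⟩
  have hC20 : 1 ≤ C2 := by rw [hC2]; linarith
  obtain ⟨C3, hC3⟩ : ∃ C3 : ℝ, C3 = C2 * (1 + C1) + C1 := ⟨_, rfl⟩
  have hC31 : 1 ≤ C3 := by
    have h8 : 0 ≤ C2 * C1 := mul_nonneg (zero_le_one.trans hC20) hC10
    rw [hC3]
    linarith only [h8, hC20, hC10]
  -- the abscissa
  have hlim : ∀ D y : ℝ, 0 < y → ∃ b₁ : ℝ, ∀ b : ℝ, b₁ ≤ b → D * (2 : ℝ) ^ (-b) ≤ y := by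
    intro D y hy
    have h7 : Tendsto (fun b : ℝ => D * (2 : ℝ) ^ (-b)) atTop (𝓝 (D * 0)) := by
      apply Tendsto.const_mul
      have h8 := tendsto_rpow_atTop_of_base_lt_one (1 / 2 : ℝ) (by norm_num) (by norm_num)
      refine h8.congr fun b => ?_
      rw [Real.rpow_neg two_pos.le, one_div, Real.inv_rpow two_pos.le]
    rw [mul_zero] at h7
    exact eventually_atTop.1 (h7.eventually_le_const hy)
  obtain ⟨b₁, hb₁⟩ := hlim C3 (1 / 2) (by norm_num)
  obtain ⟨b₂, hb₂⟩ := hlim CL (1 / 100) (by norm_num)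
  refine ⟨1 + 4 * C3, max 4 (max b₁ b₂), by linarith, le_max_left _ _, fun b T hb hT => ?_⟩
  have hb4 : 4 ≤ b := (le_max_left _ _).trans hb
  have hbC := hb₁ b ((le_max_left _ _).trans ((le_max_right _ _).trans hb))
  have hbL := hb₂ (b + 1) (((le_max_right _ _).trans ((le_max_right _ _).trans hb)).trans
    (by linarith))
  obtain ⟨C', -, hV⟩ := h1 CL lam (b + 1) hCL hlam1 hlam2 (by linarith) hbL
  obtain ⟨A₀, hA₀, hVA⟩ := hV (T + 2) (by linarith)
  -- the conductor is large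
  obtain ⟨q2, hq2⟩ : ∃ q2 : ℕ, ∀ q : ℕ, q2 ≤ q → max 2 A₀ ≤ c0 * q := by
    have h7 : Tendsto (fun q : ℕ => c0 * (q : ℝ)) atTop atTop :=
      tendsto_natCast_atTop_atTop.const_mul_atTop hc0
    exact eventually_atTop.1 (h7.eventually_ge_atTop _)
  refine ⟨max q1 (max q2 1), fun q hq hqm χ hχ s hs1 hs2 hs3 => ?_⟩
  have hqq1 : q1 ≤ q := (le_max_left _ _).trans hqm
  have hqq2 : q2 ≤ q := (le_max_left _ _).trans ((le_max_right _ _).trans hqm)
  have hqq3 : 1 ≤ q := (le_max_right _ _).trans ((le_max_right _ _).trans hqm)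
  have hqr : (1 : ℝ) ≤ q := by exact_mod_cast hqq3
  obtain ⟨A, hA⟩ : ∃ A : ℝ, A = cA K (qi K q) := ⟨_, rfl⟩
  have hAq : A = c0 * q := by rw [hA, (hcq q hq).1]
  have hA2 : 2 ≤ A := by
    rw [hAq]
    exact (le_max_left _ _).trans (hq2 q hqq2)
  have hAA : A₀ ≤ A := by
    rw [hAq]
    exact (le_max_right _ _).trans (hq2 q hqq2)
  obtain ⟨hEnt, hLFg⟩ := hLF q hq hqq1 χ hχ
  rw [← hA] at hLFg
  have hZd : Differentiable ℂ (Zx χ) := hEnt.1
  have hZ1 : ∀ s : ℂ, 3 / 2 ≤ s.re → ‖Zx χ s - 1‖ ≤ C1 * (2 : ℝ) ^ (-s.re) := by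
    intro s hs
    rw [hEnt.2 s (by linarith)]
    exact (hL χ s hs).2
  have hlogA : 0 < Real.log A := Real.log_pos (by linarith)
  have hσ : sg0 K R q ≤ 1 / 2 := by
    have h7 : 0 ≤ R / Lq K q := by
      rw [Lq, ← hA]
      positivity
    rw [sg0]
    linarith
  have hMq : 1 ≤ Mq ε₁ q := by
    rw [Mq]
    exact Real.one_le_rpow hqr (by linarith)
  -- differentiability
  have hVx : ∀ z : ℂ, 1 / 8 < z.re → z.re < 2 * (b + 1) → |z.im| < T + 2 →
      DifferentiableAt ℂ (VZ lam A (Zx χ)) z ∧ ‖cof lam A z‖ ≤ 1 := by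
    intro z hz1 hz2 hz3
    obtain ⟨-, h7, -, h8, -⟩ := hVA A hAA (Zx χ) hLFg z hz1 hz2 hz3
    exact ⟨h7, h8⟩
  have hfd : ∀ z : ℂ, 1 / 8 < z.re → z.re < 2 * (b + 1) → |z.im| < T + 2 →
      DifferentiableAt ℂ (fx lam R ε₁ q χ) z := by
    intro z hz1 hz2 hz3
    have h7 := (hVx z hz1 hz2 hz3).1.mul ((ml_diff (Mq ε₁ q) (sg0 K R q) χ.ψ) z)
    rw [hA] at h7
    exact h7
  -- the function is near one
  have hnear : ∀ z : ℂ, 5 / 2 ≤ z.re → z.re < 2 * (b + 1) → |z.im| < T + 2 →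
      ‖fx lam R ε₁ q χ z - 1‖ ≤ C3 * (2 : ℝ) ^ (-z.re) := by
    intro z hz1 hz2 hz3
    have hp : (0 : ℝ) < (2 : ℝ) ^ (-z.re) := Real.rpow_pos_of_pos two_pos _
    have hp1 : (2 : ℝ) ^ (-z.re) ≤ 1 :=
      Real.rpow_le_one_of_one_le_of_nonpos one_le_two (by linarith)
    have h7 : ‖VZ lam A (Zx χ) z - 1‖ ≤ C2 * (2 : ℝ) ^ (-z.re) := by
      have h8 : VZ lam A (Zx χ) z - 1 = (Zx χ z - 1) + cof lam A z * deriv (Zx χ) z := by
        rw [VZ]
        ring
      rw [h8]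
      refine (norm_add_le _ _).trans ?_
      rw [norm_mul]
      have h9 := (hVx z (by linarith) hz2 hz3).2
      have h10 := deriv_le hZd hZ1 hC10 hz1
      have h11 := hZ1 z (by linarith)
      have h12 : ‖cof lam A z‖ * ‖deriv (Zx χ) z‖ ≤ 1 * (2 * C1 * (2 : ℝ) ^ (-z.re)) :=
        mul_le_mul h9 h10 (norm_nonneg _) zero_le_one
      rw [hC2]
      linarith
    have h8 : ‖ml (Mq ε₁ q) (sg0 K R q) χ.ψ z - 1‖ ≤ C1 * (2 : ℝ) ^ (-z.re) :=
      ml_near hC10 hM hMq hσ χ (by linarith)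
    have h9 : ‖ml (Mq ε₁ q) (sg0 K R q) χ.ψ z‖ ≤ 1 + C1 := by
      have h10 : ml (Mq ε₁ q) (sg0 K R q) χ.ψ z = 1 + (ml (Mq ε₁ q) (sg0 K R q) χ.ψ z - 1) := by
        ring
      rw [h10]
      refine (norm_add_le _ _).trans ?_
      rw [norm_one]
      have h11 := mul_le_of_le_one_right hC10 hp1
      linarith only [h8, h11]
    have h10 : fx lam R ε₁ q χ z - 1 =
        (VZ lam A (Zx χ) z - 1) * ml (Mq ε₁ q) (sg0 K R q) χ.ψ z +
          (ml (Mq ε₁ q) (sg0 K R q) χ.ψ z - 1) := by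
      rw [fx, ← hA]
      ring
    rw [h10]
    refine (norm_add_le _ _).trans ?_
    rw [norm_mul]
    have h11 : ‖VZ lam A (Zx χ) z - 1‖ *
        ‖ml (Mq ε₁ q) (sg0 K R q) χ.ψ z‖ ≤ C2 * (2 : ℝ) ^ (-z.re) * (1 + C1) :=
      mul_le_mul h7 h9 (norm_nonneg _) (by positivity)
    rw [hC3]
    linarith
  refine ⟨hfd s (by linarith) (by linarith) (by linarith), fun hs4 => ?_, fun hsb => ?_⟩
  · have h7 := hnear s (by linarith) (by linarith) (by linarith)
    have hp1 : (2 : ℝ) ^ (-s.re) ≤ 1 :=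
      Real.rpow_le_one_of_one_le_of_nonpos one_le_two (by linarith)
    have h10 : fx lam R ε₁ q χ s = 1 + (fx lam R ε₁ q χ s - 1) := by ring
    rw [h10]
    refine (norm_add_le _ _).trans ?_
    rw [norm_one]
    have h11 := mul_le_of_le_one_right (zero_le_one.trans hC31) hp1
    linarith only [h7, h11, hC31]
  · have hp : (0 : ℝ) < (2 : ℝ) ^ (-b) := Real.rpow_pos_of_pos two_pos _
    have h7 := hnear s (by linarith) (by linarith) (by linarith)
    rw [hsb] at h7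
    have h8 : |‖fx lam R ε₁ q χ s‖ - 1| ≤ C3 * (2 : ℝ) ^ (-b) := by
      have h9 := abs_norm_sub_norm_le (fx lam R ε₁ q χ s) 1
      rw [norm_one] at h9
      exact h9.trans h7
    have h9 : 1 / 2 ≤ ‖fx lam R ε₁ q χ s‖ := by
      have := (abs_le.1 h8).1
      linarith
    have h10 : ‖deriv (fx lam R ε₁ q χ) s‖ ≤ 2 * C3 * (2 : ℝ) ^ (-b) := by
      have h11 : deriv (fx lam R ε₁ q χ) s = deriv (fun z => fx lam R ε₁ q χ z - 1) s :=
        (deriv_sub_const _).symm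
      rw [h11]
      have hball : ∀ z ∈ Metric.closedBall s 1, b - 1 ≤ z.re ∧ z.re ≤ b + 1 ∧ |z.im| < T + 2 := by
        intro z hz
        rw [mem_closedBall_iff_norm] at hz
        have h12 : |(z - s).re| ≤ 1 := (Complex.abs_re_le_norm _).trans hz
        have h13 : |(z - s).im| ≤ 1 := (Complex.abs_im_le_norm _).trans hz
        rw [Complex.sub_re, abs_le] at h12
        refine ⟨by linarith [h12.1], by linarith [h12.2], ?_⟩
        have h14 : z.im = s.im + (z - s).im := by rw [Complex.sub_im]; ring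
        rw [h14]
        exact (abs_add_le _ _).trans_lt (by linarith)
      have h12 := Complex.norm_deriv_le_of_forall_mem_sphere_norm_le
        (f := fun z => fx lam R ε₁ q χ z - 1) (c := s) (R := 1)
        (C := 2 * C3 * (2 : ℝ) ^ (-b)) one_pos (by
          apply DifferentiableOn.diffContOnCl_ball (U := Metric.closedBall s 1) _ subset_rfl
          intro z hz
          have h13 := hball z hz
          exact ((hfd z (by linarith) (by linarith) h13.2.2).sub_const 1).differentiableWithinAt)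
        (by
          intro z hz
          have h13 := hball z (Metric.sphere_subset_closedBall hz)
          refine (hnear z (by linarith) (by linarith) h13.2.2).trans ?_
          have h14 : (2 : ℝ) ^ (-z.re) ≤ 2 * (2 : ℝ) ^ (-b) := by
            calc (2 : ℝ) ^ (-z.re) ≤ (2 : ℝ) ^ (1 + -b) :=
                  Real.rpow_le_rpow_of_exponent_le one_le_two (by linarith [h13.1])
              _ = 2 * (2 : ℝ) ^ (-b) := by rw [Real.rpow_add two_pos, Real.rpow_one]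
          calc C3 * (2 : ℝ) ^ (-z.re) ≤ C3 * (2 * (2 : ℝ) ^ (-b)) :=
                mul_le_mul_of_nonneg_left h14 (by linarith)
            _ = _ := by ring)
      rw [div_one] at h12
      exact h12
    refine ⟨fun h0 => ?_, ?_, ?_⟩
    · rw [h0, norm_zero] at h9
      norm_num at h9
    · refine (log_near h9).trans ?_
      have h11 : 0 < C3 * (2 : ℝ) ^ (-b) := mul_pos (by linarith only [hC31]) hp
      linarith only [h11, h8, hp]
    · refine h10.trans ?_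
      have h11 : 0 < C3 * (2 : ℝ) ^ (-b) := mul_pos (by linarith only [hC31]) hp
      have h12 : (0 : ℝ) ≤ (1 + 4 * C3) * (2 : ℝ) ^ (-b) := by linarith only [h11, hp]
      have h13 := mul_le_mul_of_nonneg_left h9 h12
      linarith only [h13, h11, hp]

end Pool.Agent.H56.CRZ.FB
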