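import Pool.Agent.H56.CRZ.INa

/-!
Board crz_modules, row IN: mean squares of the auxiliary function.
-/

set_option autoImplicit false

open NumberField NumberField.InfinitePlace Complex Filter Topology MeasureTheory

namespace Pool.Agent.H56.CRZ

open Pool.Agent.H28.RC Pool.Agent.H25.HK Pool.Agent.H37.CV
open Pool.Agent.H65.CRZ

open scoped Classical in
theorem finsum_mem_sub {α : Type} (P : Set α) [Fintype P] (f : α → ℝ) :
    ∑ᶠ x ∈ P, f x = ∑ i : P, f i := by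
  rw [← finsum_set_coe_eq_finsum_mem, finsum_eq_sum_of_fintype]

theorem pf_IN (h1 : T_MS) (h2 : T_TL) (h3 : T_LF) (h4 : T_FB) (h5 : T_H2) (h6 : T_G2)
    (h7 : T_CQ) : T_IN := by
  intro K _ _ _ hK lam R ε₁ hlam1 hlam2 hR hε hε'
  obtain ⟨-, c, hc, hcA⟩ := h7 K hK
  obtain ⟨C, B, hC, hB, hMS⟩ := h1 K hK R ε₁ hR hε hε'
  obtain ⟨K₁, hK₁, hTL⟩ := h2 B 4 hB (by norm_num)
  obtain ⟨C2, hC2, hH2, hH2'⟩ := h5 K
  obtain ⟨CL, qL, hCL, hLF⟩ := h3 K hK
  obtain ⟨CF, b₀, hCF, hb₀, hFB⟩ := h4 K hK lam R ε₁ hlam1 hlam2 hR hε hε'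
  obtain ⟨q₁, hq₁⟩ := Pool.Agent.H23.CRZ.Lq_bds K c hc hcA
  obtain ⟨q₂, hq₂⟩ := Pool.Agent.H46.CA.pf_PNC a_IE a_HQ K (1 / 2) (by norm_num)
  obtain ⟨C', hC'⟩ : ∃ C' : ℝ, C' = 2 * (C + 1) + C2 ^ 2 * (1 + C2) ^ 2 := ⟨_, rfl⟩
  have hC'0 : 0 < C' := by rw [hC']; positivity
  refine ⟨(2 + 32 * lam ^ 2 / R ^ 2) * (K₁ * C') + CF ^ 2, b₀, ?_, hb₀, fun b T hb hT => ?_⟩
  · have h8 : 0 ≤ (2 + 32 * lam ^ 2 / R ^ 2) * (K₁ * C') := by positivity
    have h9 : 1 ≤ CF ^ 2 := one_le_pow₀ hCF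
    linarith
  obtain ⟨q₃, hq₃⟩ := hFB b (T + 1) hb (by linarith)
  obtain ⟨CG, hCG, hG⟩ := h6.2 4 T
  obtain ⟨q₄, hq₄⟩ := Pool.Agent.H23.CRZ.log_large (4 * R + 2 * lam * CG)
  obtain ⟨q₅, hq₅⟩ := hMS ((1 + T) ^ (-B)) (by positivity)
  refine ⟨max (max (max q₁ q₂) (max q₃ q₄)) (max q₅ qL), fun q hq hqq x t hx hxb ht => ?_⟩
  have hm1 := (le_max_left _ _).trans hqq
  have hm2 := (le_max_right _ _).trans hqq
  have hqq1 : q₁ ≤ q := (le_max_left _ _).trans ((le_max_left _ _).trans hm1)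
  have hqq2 : q₂ ≤ q := (le_max_right _ _).trans ((le_max_left _ _).trans hm1)
  have hqq3 : q₃ ≤ q := (le_max_left _ _).trans ((le_max_right _ _).trans hm1)
  have hqq4 : q₄ ≤ q := (le_max_right _ _).trans ((le_max_right _ _).trans hm1)
  have hqq5 : q₅ ≤ q := (le_max_left _ _).trans hm2
  have hqq6 : qL ≤ q := (le_max_right _ _).trans hm2
  obtain ⟨l1, l2, l3, l4, l5⟩ := hq₁ q hq hqq1
  have hlog := hq₄ q hqq4
  have hq0 : (0 : ℝ) < q := by exact_mod_cast hq.pos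
  have hq1 : (1 : ℝ) ≤ q := by exact_mod_cast hq.one_lt.le
  obtain ⟨L, hL⟩ : ∃ L : ℝ, L = Lq K q := ⟨_, rfl⟩
  have hL0 : 0 < L := by rw [hL]; linarith
  have hLR : 4 * R + 2 * lam * CG ≤ L := by rw [hL]; linarith
  have hlC : 0 ≤ 2 * lam * CG := by positivity
  have hsg : sg0 K R q = 1 / 2 - R / L := by rw [sg0, hL]
  have hRL : R / L ≤ 1 / 4 := by
    rw [div_le_iff₀ hL0]
    linarith
  have hRL0 : 0 < R / L := by positivity
  have hsg1 : 1 / 4 ≤ sg0 K R q := by rw [hsg]; linarith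
  have hsg2 : sg0 K R q ≤ 1 / 2 := by rw [hsg]; linarith
  have hMq : 1 ≤ Mq ε₁ q := Real.one_le_rpow hq1 (by linarith)
  have hPf : (Pr K (qi K q)).Finite := (a_IE K q hq).1
  have : Fintype (Pr K (qi K q)) := hPf.fintype
  rw [finsum_mem_sub]
  have hN : ((Pr K (qi K q)).ncard : ℝ) = Fintype.card (Pr K (qi K q)) := by
    rw [Set.ncard_eq_toFinset_card', Set.toFinset_card]
  obtain ⟨N, hNd⟩ : ∃ N : ℝ, N = ((Pr K (qi K q)).ncard : ℝ) := ⟨_, rfl⟩
  have hN0 : 0 ≤ N := by rw [hNd]; exact Nat.cast_nonneg _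
  have hconst : ∀ (g : Pr K (qi K q) → ℝ) (D : ℝ), (∀ i, g i ≤ D) → ∑ i, g i ≤ D * N := by
    intro g D hg
    refine (Finset.sum_le_card_nsmul Finset.univ g D fun i _ => hg i).trans (le_of_eq ?_)
    rw [nsmul_eq_mul, Finset.card_univ, hNd, hN]
    ring
  rw [← hNd]
  -- the right part
  rcases le_or_gt 4 x with hx4 | hx4
  · have hs : ((x : ℂ) + t * I).re = x := by simp
    have hs' : ((x : ℂ) + t * I).im = t := by simp
    have h8 : ∀ i : Pr K (qi K q), ‖fx lam R ε₁ q i.1 (x + t * I)‖ ^ 2 ≤ CF ^ 2 := by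
      intro i
      refine pow_le_pow_left₀ (norm_nonneg _) ?_ 2
      refine (hq₃ q hq hqq3 i.1 i.2 _ ?_ ?_ ?_).2.1 ?_
      · rw [hs]; linarith
      · rw [hs]; linarith
      · rw [hs']; linarith
      · rw [hs]; exact hx4
    refine (hconst _ _ h8).trans ?_
    refine mul_le_mul_of_nonneg_right ?_ hN0
    have h9 : 0 ≤ (2 + 32 * lam ^ 2 / R ^ 2) * (K₁ * C') := by positivity
    linarith
  -- the left part
  have hnc : (nc (qi K q) (qi K q) : ℝ) ≤ 2 * N := by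
    have h8 := hq₂ q hq hqq2
    rw [hNd]
    linarith
  have hBx : ∀ u : ℝ, (1 : ℝ) ≤ (1 + |u - t|) ^ B := fun u =>
    Real.one_le_rpow (by linarith [abs_nonneg (u - t)]) hB
  obtain ⟨ρ, hρ⟩ : ∃ ρ : ℝ, ρ = R / (2 * L) := ⟨_, rfl⟩
  have hρ0 : 0 < ρ := by rw [hρ]; positivity
  have hρ1 : ρ ≤ 1 := by
    have h8 : ρ = (R / L) / 2 := by rw [hρ]; field_simp
    rw [h8]
    linarith
  have hEnt : ∀ i : Pr K (qi K q), IsEnt i.1 (Zx i.1) := fun i => (hLF q hq hqq6 i.1 i.2).1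
  have hLFn : ∀ i : Pr K (qi K q), LFn CL (cA K (qi K q)) (Zx i.1) :=
    fun i => (hLF q hq hqq6 i.1 i.2).2
  have hA0 : 0 ≤ cA K (qi K q) := by
    rw [(hcA q hq).1]
    positivity
  have key : ∀ a : ℂ, ‖a‖ ≤ ρ → ∑ i : Pr K (qi K q), ‖Zx i.1 ((x + t * I : ℂ) + a) *
      ml (Mq ε₁ q) (sg0 K R q) i.1.ψ (x + t * I)‖ ^ 2 ≤ K₁ * (C' * N) := by
    intro a ha
    have ha1 : ‖a‖ ≤ 1 := ha.trans hρ1
    refine hTL (Pr K (qi K q)) (fun i s => Zx i.1 (s + a) *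
      ml (Mq ε₁ q) (sg0 K R q) i.1.ψ s) (sg0 K R q) 4 t (C' * N) (by linarith) (by linarith)
      ?_ ?_ ?_ ?_ x hx hx4.le
    · intro i s _ _
      have h8 : DifferentiableAt ℂ (fun s => Zx i.1 (s + a)) s :=
        ((hEnt i).1 (s + a)).comp s (differentiableAt_id.add_const a)
      exact h8.mul (differentiable_ml _ _ _ s)
    · intro i
      obtain ⟨Cm, hCm, hm⟩ := ml_bdd (K := K) (Mq ε₁ q) (sg0 K R q) i.1.ψ
      refine ⟨(3 * cA K (qi K q)) ^ CL * Cm, CL, fun s hs1 hs2 => ?_⟩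
      rw [norm_mul]
      have h8 := growth (by linarith) hA0 (hLFn i).bd a ha1 s (by linarith)
      have h9 := hm s (by linarith)
      calc ‖Zx i.1 (s + a)‖ * ‖ml (Mq ε₁ q) (sg0 K R q) i.1.ψ s‖
          ≤ ((3 * cA K (qi K q)) ^ CL * (1 + |s.im|) ^ CL) * Cm :=
            mul_le_mul h8 h9 (norm_nonneg _) (by positivity)
        _ = _ := by ring
    · intro u
      have h8 := hq₅ q hq hqq5 a u (by rw [← hL, ← hρ]; exact ha)
      rw [finsum_mem_sub] at h8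
      refine h8.trans ?_
      have h9 : (1 + |u|) ^ B ≤ (1 + T) ^ B * (1 + |u - t|) ^ B := by
        rw [← Real.mul_rpow (by positivity) (by positivity)]
        refine Real.rpow_le_rpow (by positivity) ?_ hB
        have h10 : |u| ≤ |u - t| + |t| := by
          have := abs_add_le (u - t) t
          rwa [sub_add_cancel] at this
        have h11 := mul_nonneg hT.le (abs_nonneg (u - t))
        linarith only [h10, h11, ht]
      have h10 : (1 + T) ^ (-B) * (1 + |u|) ^ B ≤ (1 + |u - t|) ^ B := by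
        have h11 := mul_le_mul_of_nonneg_left h9
          (show (0 : ℝ) ≤ (1 + T) ^ (-B) by positivity)
        refine h11.trans (le_of_eq ?_)
        rw [← mul_assoc, ← Real.rpow_add (by linarith), neg_add_cancel, Real.rpow_zero, one_mul]
      rw [hC']
      exact alg1 hC (hBx u) h10 hnc (Nat.cast_nonneg _) hN0 (by positivity)
    · intro u
      have h8 : ∀ i : Pr K (qi K q), ‖Zx i.1 (((4 : ℝ) : ℂ) + u * I + a) *
          ml (Mq ε₁ q) (sg0 K R q) i.1.ψ (((4 : ℝ) : ℂ) + u * I)‖ ^ 2 ≤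
            C2 ^ 2 * (1 + C2) ^ 2 := by
        intro i
        rw [norm_mul, mul_pow]
        have hre : (((4 : ℝ) : ℂ) + u * I).re = 4 := by simp
        have hre' : (((4 : ℝ) : ℂ) + u * I + a).re = 4 + a.re := by
          rw [Complex.add_re, hre]
        have har : -1 ≤ a.re := (abs_le.1 ((Complex.abs_re_le_norm a).trans ha1)).1
        refine mul_le_mul ?_ ?_ (by positivity) (by positivity)
        · refine pow_le_pow_left₀ (norm_nonneg _) ?_ 2
          rw [(hEnt i).2 _ (by rw [hre']; linarith)]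
          exact (hH2 i.1 _ (by rw [hre']; linarith)).1
        · refine pow_le_pow_left₀ (norm_nonneg _) ?_ 2
          exact ml_right (by linarith) hH2' hMq i.1 _ (by rw [hre]; linarith)
      refine (hconst _ _ h8).trans ?_
      rw [hC']
      exact alg2 hC (hBx u) hN0 (by positivity)
  -- the two parts of the function
  have k0 := key 0 (by rw [norm_zero]; exact hρ0.le)
  simp only [add_zero] at k0
  have k1 := cauchy_fam (fun i : Pr K (qi K q) => Zx i.1)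
    (fun i => ml (Mq ε₁ q) (sg0 K R q) i.1.ψ (x + t * I)) (x + t * I) hρ0
    (fun i => (hEnt i).1) key
  have hlogA : 0 < Real.log (cA K (qi K q)) := by
    rw [hL, Lq] at hL0
    linarith
  have hcof : ‖cof lam (cA K (qi K q)) (x + t * I)‖ ≤ 2 * lam / L := by
    have hs : ((x : ℂ) + t * I).re = x := by simp
    have hs' : ((x : ℂ) + t * I).im = t := by simp
    have h8 := norm_cof_le (lam := lam) (A := cA K (qi K q)) (s := x + t * I) (CG := CG)
      (by linarith) (by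
        rw [hL, Lq] at hLR
        linarith) hlogA
      (hG _ (by rw [hs]; linarith) (by rw [hs]; exact hx4.le) (by rw [hs']; exact ht)).1
    rw [hL, Lq]
    exact h8
  have hterm : ∀ i : Pr K (qi K q), ‖fx lam R ε₁ q i.1 (x + t * I)‖ ^ 2 ≤
      2 * ‖Zx i.1 (x + t * I) * ml (Mq ε₁ q) (sg0 K R q) i.1.ψ (x + t * I)‖ ^ 2 +
      2 * (2 * lam / L) ^ 2 * ‖deriv (Zx i.1) (x + t * I) *
        ml (Mq ε₁ q) (sg0 K R q) i.1.ψ (x + t * I)‖ ^ 2 := by
    intro i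
    have h8 : fx lam R ε₁ q i.1 (x + t * I) =
        Zx i.1 (x + t * I) * ml (Mq ε₁ q) (sg0 K R q) i.1.ψ (x + t * I) +
        cof lam (cA K (qi K q)) (x + t * I) * (deriv (Zx i.1) (x + t * I) *
          ml (Mq ε₁ q) (sg0 K R q) i.1.ψ (x + t * I)) := by
      unfold fx VZ
      ring
    rw [h8]
    exact alg6 hcof
  refine (Finset.sum_le_sum fun i _ => hterm i).trans ?_
  rw [Finset.sum_add_distrib, ← Finset.mul_sum, ← Finset.mul_sum]
  have h8 : 2 * (2 * lam / L) ^ 2 * ∑ i : Pr K (qi K q), ‖deriv (Zx i.1) (x + t * I) *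
      ml (Mq ε₁ q) (sg0 K R q) i.1.ψ (x + t * I)‖ ^ 2 ≤
      32 * lam ^ 2 / R ^ 2 * (K₁ * C' * N) := by
    have h9 := mul_le_mul_of_nonneg_left k1 (show (0 : ℝ) ≤ 2 * (2 * lam / L) ^ 2 by positivity)
    refine h9.trans (le_of_eq ?_)
    rw [hρ]
    exact alg5 hL0.ne' hR.ne'
  refine alg4 (k0.trans (le_of_eq (by ring))) h8 (sq_nonneg _) hN0

end Pool.Agent.H56.CRZ
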