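import Pool.Agent.H23.CRZ.MS
import Pool.Agent.H91.CRZ.B
import Pool.Agent.H46.CA.PNC

/-!
Board crz_modules, row IN, part 1: Cauchy's estimate for several functions, the mollifier, the
size of the coefficient of the derivative.
-/

set_option autoImplicit false

open NumberField NumberField.InfinitePlace Complex Filter Topology MeasureTheory

namespace Pool.Agent.H56.CRZ

open Pool.Agent.H28.RC Pool.Agent.H25.HK Pool.Agent.H37.CV
open Pool.Agent.H65.CRZ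

/-- Cauchy's estimate for a finite family -/
theorem cauchy_fam {ι : Type} [Fintype ι] (Z : ι → ℂ → ℂ) (m : ι → ℂ) (s : ℂ) {ρ Q : ℝ}
    (hρ : 0 < ρ) (hZ : ∀ i, Differentiable ℂ (Z i))
    (hQ : ∀ a : ℂ, ‖a‖ ≤ ρ → ∑ i, ‖Z i (s + a) * m i‖ ^ 2 ≤ Q) :
    ∑ i, ‖deriv (Z i) s * m i‖ ^ 2 ≤ Q / ρ ^ 2 := by
  have hQ0 : 0 ≤ Q := (Finset.sum_nonneg fun i _ => by positivity).trans (hQ 0 (by simp [hρ.le]))
  set H : ℂ → EuclideanSpace ℂ ι := fun z => WithLp.toLp 2 (fun i => Z i z * m i) with hH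
  have hHd : ∀ z, HasDerivAt H (WithLp.toLp 2 (fun i => deriv (Z i) z * m i)) z := by
    intro z
    have h1 : HasDerivAt (fun z => (fun i => Z i z * m i)) (fun i => deriv (Z i) z * m i) z :=
      hasDerivAt_pi.2 fun i => ((hZ i z).hasDerivAt).mul_const (m i)
    exact ((PiLp.continuousLinearEquiv 2 ℂ (fun _ : ι => ℂ)).symm.toContinuousLinearMap.hasFDerivAt
      (x := fun i => Z i z * m i)).comp_hasDerivAt z h1
  have hHD : Differentiable ℂ H := fun z => (hHd z).differentiableAt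
  have hb : ∀ z ∈ Metric.sphere s ρ, ‖H z‖ ≤ Real.sqrt Q := by
    intro z hz
    rw [EuclideanSpace.norm_eq]
    refine Real.sqrt_le_sqrt ?_
    have h1 : z = s + (z - s) := by ring
    have h2 : ‖z - s‖ ≤ ρ := (mem_sphere_iff_norm.1 hz).le
    have h3 := hQ (z - s) h2
    rw [← h1] at h3
    exact h3
  have h4 := Complex.norm_deriv_le_of_forall_mem_sphere_norm_le hρ hHD.diffContOnCl hb
  rw [(hHd s).deriv, EuclideanSpace.norm_eq] at h4
  have h5 : (0 : ℝ) ≤ ∑ i, ‖deriv (Z i) s * m i‖ ^ 2 := Finset.sum_nonneg fun i _ => by positivity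
  have h6 := pow_le_pow_left₀ (Real.sqrt_nonneg _) h4 2
  rw [div_pow, Real.sq_sqrt hQ0] at h6
  have h7 : Real.sqrt (∑ i, ‖deriv (Z i) s * m i‖ ^ 2) ^ 2 = ∑ i, ‖deriv (Z i) s * m i‖ ^ 2 :=
    Real.sq_sqrt h5
  rw [← h7]
  exact h6

section

variable {K : Type} [Field K] [NumberField K]

/-- the mollifier is entire -/
theorem differentiable_ml (M σ₀ : ℝ) (ψ : Ideal (𝓞 K) → ℂ) : Differentiable ℂ (ml M σ₀ ψ) := by
  unfold ml
  refine Differentiable.fun_sum fun S _ => ?_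
  have h1 : ((nS np S : ℝ) : ℂ) ≠ 0 := by
    exact_mod_cast (Pool.Agent.H96.CV.nS_pos S).ne'
  refine Differentiable.const_mul ?_ _
  intro s
  refine DifferentiableAt.const_cpow ?_ (Or.inl h1)
  fun_prop

/-- the mollifier is bounded in right half planes -/
theorem ml_bdd (M σ₀ : ℝ) (ψ : Ideal (𝓞 K) → ℂ) : ∃ C : ℝ, 0 ≤ C ∧ ∀ s : ℂ, σ₀ - 1 / 2 ≤ s.re →
    ‖ml M σ₀ ψ s‖ ≤ C := by
  refine ⟨∑ S ∈ DM K M, ‖(xw K M S : ℂ) * ψ (idS S)‖, Finset.sum_nonneg fun _ _ => norm_nonneg _,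
    fun s hs => ?_⟩
  unfold ml
  refine (norm_sum_le _ _).trans (Finset.sum_le_sum fun S _ => ?_)
  rw [norm_mul]
  have h1 : 0 < nS np S := Pool.Agent.H96.CV.nS_pos S
  rw [Complex.norm_cpow_eq_rpow_re_of_pos h1]
  have h2 : (-(s + 1 / 2 - (σ₀ : ℂ))).re = -(s.re + 1 / 2 - σ₀) := by
    simp
  rw [h2]
  have h3 : nS np S ^ (-(s.re + 1 / 2 - σ₀)) ≤ 1 :=
    Real.rpow_le_one_of_one_le_of_nonpos (Pool.Agent.H96.CV.one_le_nS S) (by linarith)
  exact mul_le_of_le_one_right (norm_nonneg _) h3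

/-- the mollifier to the right -/
theorem ml_right {C : ℝ} (hC : 0 ≤ C)
    (h : ∀ (M : ℝ) (χ : RCC K) (c : Finset (PrI K) → ℂ) (s : ℂ), 3 / 2 ≤ s.re → (∀ S, ‖c S‖ ≤ 1) →
      c ∅ = 1 → 1 ≤ M →
      ‖(∑ S ∈ DM K M, c S * χ.ψ (idS S) * ((nS np S : ℝ) : ℂ) ^ (-s)) - 1‖ ≤
        C * (2 : ℝ) ^ (-s.re)) {M σ₀ : ℝ} (hM : 1 ≤ M) (χ : RCC K) (s : ℂ)
    (hs : 1 + σ₀ ≤ s.re) : ‖ml M σ₀ χ.ψ s‖ ≤ 1 + C := by
  have h1 : (s + 1 / 2 - (σ₀ : ℂ)).re = s.re + 1 / 2 - σ₀ := by simp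
  have h2 := h M χ (fun S => (xw K M S : ℂ)) (s + 1 / 2 - (σ₀ : ℂ)) (by rw [h1]; linarith)
    (fun S => by
      rw [Complex.norm_real, Real.norm_eq_abs]
      exact Pool.Agent.H91.CRZ.abs_xw_le hM S)
    (by
      have := (a_CX (PrI K) np (PM K M) M Pool.Agent.H96.CV.two_le_np hM).1
      have h3 : xw K M ∅ = 1 := this
      simp only [h3]
      exact Complex.ofReal_one) hM
  have h3 : (2 : ℝ) ^ (-(s + 1 / 2 - (σ₀ : ℂ)).re) ≤ 1 := by
    refine Real.rpow_le_one_of_one_le_of_nonpos (by norm_num) ?_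
    rw [h1]
    linarith
  have h4 : ‖ml M σ₀ χ.ψ s - 1‖ ≤ C := by
    refine le_trans h2 ?_
    exact mul_le_of_le_one_right hC h3
  have h5 := norm_add_le (ml M σ₀ χ.ψ s - 1) 1
  rw [sub_add_cancel, norm_one] at h5
  linarith

end

/-- the size of the coefficient of the derivative -/
theorem norm_cof_le {lam A CG : ℝ} {s : ℂ} (hlam : 0 < lam) (hL : 2 * lam * CG ≤ 2 * Real.log A)
    (hL0 : 0 < Real.log A) (hG : ‖ld Gamma s‖ ≤ CG) :
    ‖cof lam A s‖ ≤ 2 * lam / (2 * Real.log A) := by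
  unfold Pool.Agent.H65.CRZ.cof
  rw [norm_div, norm_one]
  have h1 : 2 * Real.log A / lam - CG ≤ ‖((2 * Real.log A / lam : ℝ) : ℂ) + ld Gamma s‖ := by
    have h2 := norm_sub_le_norm_add ((2 * Real.log A / lam : ℝ) : ℂ) (ld Gamma s)
    rw [Complex.norm_real, Real.norm_eq_abs, abs_of_pos (by positivity)] at h2
    linarith
  have h3 : 2 * Real.log A / (2 * lam) ≤ 2 * Real.log A / lam - CG := by
    have h4 : CG ≤ 2 * Real.log A / (2 * lam) := by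
      rw [le_div_iff₀ (by positivity)]
      linarith
    have h5 : 2 * Real.log A / lam = 2 * Real.log A / (2 * lam) + 2 * Real.log A / (2 * lam) := by
      field_simp
      ring
    linarith
  have h6 : 0 < 2 * Real.log A / (2 * lam) := by positivity
  rw [div_le_iff₀ (lt_of_lt_of_le h6 (h3.trans h1))]
  have h7 := h3.trans h1
  have h8 := mul_le_mul_of_nonneg_left h7 (show (0 : ℝ) ≤ 2 * lam / (2 * Real.log A) by positivity)
  refine le_trans (le_of_eq ?_) h8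
  field_simp

/-- the growth of a shifted `L`-function -/
theorem growth {C A : ℝ} (hC : 0 ≤ C) (hA : 0 ≤ A) {Z : ℂ → ℂ}
    (hZ : ∀ s : ℂ, -1 ≤ s.re → ‖Z s‖ ≤ (A * (2 + |s.im|)) ^ C) (a : ℂ) (ha : ‖a‖ ≤ 1) (s : ℂ)
    (hs : 0 ≤ s.re) : ‖Z (s + a)‖ ≤ (3 * A) ^ C * (1 + |s.im|) ^ C := by
  have h1 : -1 ≤ a.re := by
    have := (abs_le.1 ((Complex.abs_re_le_norm a).trans ha)).1
    exact this
  have h2 : |a.im| ≤ 1 := (Complex.abs_im_le_norm a).trans ha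
  have h3 : -1 ≤ (s + a).re := by
    rw [Complex.add_re]
    linarith
  refine (hZ _ h3).trans ?_
  rw [← Real.mul_rpow (by positivity) (by positivity)]
  refine Real.rpow_le_rpow (by positivity) ?_ hC
  have h4 : |(s + a).im| ≤ |s.im| + |a.im| := by
    rw [Complex.add_im]
    exact abs_add_le _ _
  have h5 : 2 + |(s + a).im| ≤ 3 * (1 + |s.im|) := by
    have := abs_nonneg s.im
    linarith
  have h6 := mul_le_mul_of_nonneg_left h5 hA
  linarith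

theorem alg1 {C X E D n N : ℝ} (hC : 0 < C) (hE : 1 ≤ E) (hX : X ≤ E) (hn : n ≤ 2 * N)
    (hn0 : 0 ≤ n) (hN : 0 ≤ N) (hD : 0 ≤ D) : (C + X) * n ≤ (2 * (C + 1) + D) * N * E := by
  have h1 : (C + X) * n ≤ (C * E + E) * (2 * N) := by
    have h2 : C + X ≤ C * E + E := by
      have := mul_le_mul_of_nonneg_left hE hC.le
      linarith
    exact mul_le_mul h2 hn hn0 (by positivity)
  have h3 : 0 ≤ D * (N * E) := by positivity
  refine h1.trans ?_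
  linarith

theorem alg2 {C E D N : ℝ} (hC : 0 < C) (hE : 1 ≤ E) (hN : 0 ≤ N) (hD : 0 ≤ D) :
    D * N ≤ (2 * (C + 1) + D) * N * E := by
  have h10 : 0 ≤ 2 * (C + 1) * (N * E) := by positivity
  have h11 : 0 ≤ D * N := by positivity
  have h12 := mul_le_mul_of_nonneg_left hE h11
  linarith

theorem alg3 (a c b : ℝ) : (a + c * b) ^ 2 ≤ 2 * a ^ 2 + 2 * c ^ 2 * b ^ 2 := by
  have := sq_nonneg (a - c * b)
  linarith

theorem alg6 {u₁ u₂ w : ℂ} {d : ℝ} (hw : ‖w‖ ≤ d) :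
    ‖u₁ + w * u₂‖ ^ 2 ≤ 2 * ‖u₁‖ ^ 2 + 2 * d ^ 2 * ‖u₂‖ ^ 2 := by
  have h9 : ‖u₁ + w * u₂‖ ≤ ‖u₁‖ + d * ‖u₂‖ := by
    refine (norm_add_le _ _).trans ?_
    rw [norm_mul]
    have := mul_le_mul_of_nonneg_right hw (norm_nonneg u₂)
    linarith
  exact (pow_le_pow_left₀ (norm_nonneg _) h9 2).trans (alg3 _ _ _)

theorem alg5 {lam L R K₁ C' N : ℝ} (hL : L ≠ 0) (hR : R ≠ 0) :
    2 * (2 * lam / L) ^ 2 * (K₁ * (C' * N) / (R / (2 * L)) ^ 2) =
      32 * lam ^ 2 / R ^ 2 * (K₁ * C' * N) := by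
  field_simp
  ring

theorem alg4 {S₀ S₁ Q F x N c : ℝ} (h0 : S₀ ≤ Q * N) (h1 : c * S₁ ≤ x * (Q * N)) (hF : 0 ≤ F)
    (hN : 0 ≤ N) : 2 * S₀ + c * S₁ ≤ ((2 + x) * Q + F) * N := by
  have := mul_nonneg hF hN
  linarith

end Pool.Agent.H56.CRZ
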